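import Pool.Agent.H961R2.Lev.Stubs

open MeasureTheory Set Filter Topology InnerProductSpace Complex

set_option autoImplicit false

namespace H961Lev

theorem T_F3 : S_F3 := by
  intro D hD hsym hax
  set S : Set ℂ := {z : ℂ | 0 < z.im} with hS
  have hopen : IsOpen S := isOpen_lt continuous_const Complex.continuous_im
  have hconv : Convex ℝ S := by
    have := convex_halfSpace_im_gt 0
    exact this
  have hpre : IsPreconnected S := hconv.isPreconnected
  have hdiff : ∀ z ∈ S, DifferentiableAt ℝ D z := fun z hz => (hD z hz).1.differentiableAt two_ne_zero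
  have hg : AnalyticOnNhd ℂ (fun z ↦ (fderiv ℝ D z 1 : ℂ) - I * fderiv ℝ D z I) S :=
    fun z hz => HarmonicAt.analyticAt_complex_partial (hD z hz)
  have hI : ∀ y : ℝ, 0 < y → fderiv ℝ D (y * I) I = 0 := by
    intro y hy
    have hmem : (y * I : ℂ) ∈ S := by simp [hS, hy]
    have h1 : HasDerivAt (fun t : ℝ => (y * I : ℂ) + t * I) I 0 := by
      have := ((Complex.ofRealCLM.hasDerivAt (x := (0 : ℝ))).mul_const I).const_add (y * I : ℂ)
      simpa using this
    have h0 : (y * I : ℂ) + ((0 : ℝ) : ℂ) * I = y * I := by simp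
    have h2 : HasDerivAt (fun t : ℝ => D ((y * I : ℂ) + t * I)) (fderiv ℝ D (y * I) I) 0 := by
      have h3 : HasFDerivAt D (fderiv ℝ D (y * I)) ((y * I : ℂ) + ((0 : ℝ) : ℂ) * I) := by
        rw [h0]; exact (hdiff _ hmem).hasFDerivAt
      exact h3.comp_hasDerivAt (0 : ℝ) h1
    have h4 : (fun t : ℝ => D ((y * I : ℂ) + t * I)) =ᶠ[𝓝 0] fun _ => 0 := by
      have : ∀ᶠ t : ℝ in 𝓝 0, 0 < y + t := by
        have hc : Continuous fun t : ℝ => y + t := by fun_prop
        exact hc.continuousAt.eventually (lt_mem_nhds (by simpa using hy))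
      filter_upwards [this] with t ht
      have := hax (y + t) ht
      rw [← this]
      congr 1
      push_cast; ring
    exact (h2.congr_of_eventuallyEq h4.symm).unique (hasDerivAt_const _ _)
  have h1' : ∀ y : ℝ, 0 < y → fderiv ℝ D (y * I) 1 = 0 := by
    intro y hy
    have hmem : (y * I : ℂ) ∈ S := by simp [hS, hy]
    have h1 : HasDerivAt (fun t : ℝ => (y * I : ℂ) + t) 1 0 := by
      have := ((Complex.ofRealCLM.hasDerivAt (x := (0 : ℝ)))).const_add (y * I : ℂ)
      simpa using this
    have h0 : (y * I : ℂ) + ((0 : ℝ) : ℂ) = y * I := by simp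
    have h2 : HasDerivAt (fun t : ℝ => D ((y * I : ℂ) + t)) (fderiv ℝ D (y * I) 1) 0 := by
      have h3 : HasFDerivAt D (fderiv ℝ D (y * I)) ((y * I : ℂ) + ((0 : ℝ) : ℂ)) := by
        rw [h0]; exact (hdiff _ hmem).hasFDerivAt
      exact h3.comp_hasDerivAt (0 : ℝ) h1
    have h5 : (fun t : ℝ => D ((y * I : ℂ) + ((-t : ℝ) : ℂ))) = fun t : ℝ => D ((y * I : ℂ) + t) := by
      funext t
      have hm : 0 < ((y * I : ℂ) + t).im := by simp [hy]
      rw [← hsym _ hm]
      congr 1
      simp
      ring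
    have h6 : HasDerivAt (fun t : ℝ => D ((y * I : ℂ) + ((-t : ℝ) : ℂ)))
        (-(fderiv ℝ D (y * I) 1)) 0 := by
      have h7 : HasDerivAt (fun t : ℝ => -t) (-1) (0 : ℝ) := hasDerivAt_neg 0
      have h8 : HasDerivAt (fun t : ℝ => D ((y * I : ℂ) + t)) (fderiv ℝ D (y * I) 1) (-0) := by
        simpa using h2
      have h9 := h8.comp (0 : ℝ) h7
      rw [mul_neg, mul_one] at h9
      exact h9
    rw [h5] at h6
    have := h6.unique h2
    linarith
  have hgz : ∀ y : ℝ, 0 < y →
      (fderiv ℝ D (y * I) 1 : ℂ) - I * fderiv ℝ D (y * I) I = 0 := by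
    intro y hy
    rw [hI y hy, h1' y hy]; simp
  have hfreq : ∃ᶠ z in 𝓝[≠] I, (fun z ↦ (fderiv ℝ D z 1 : ℂ) - I * fderiv ℝ D z I) z = 0 := by
    have ht : Tendsto (fun t : ℝ => (t * I : ℂ)) (𝓝[≠] 1) (𝓝[≠] I) := by
      refine tendsto_nhdsWithin_iff.2 ⟨?_, ?_⟩
      · have hc : Continuous fun t : ℝ => (t * I : ℂ) := by fun_prop
        have := hc.tendsto 1
        simp only [Complex.ofReal_one, one_mul] at this
        exact this.mono_left nhdsWithin_le_nhds
      · filter_upwards [self_mem_nhdsWithin] with t ht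
        simp only [mem_compl_iff, mem_singleton_iff] at ht ⊢
        intro h
        apply ht
        have := congrArg Complex.im h
        simpa using this
    have hev : ∀ᶠ t : ℝ in 𝓝[≠] 1,
        (fun z ↦ (fderiv ℝ D z 1 : ℂ) - I * fderiv ℝ D z I) (t * I : ℂ) = 0 := by
      have : ∀ᶠ t : ℝ in 𝓝[≠] 1, 0 < t := nhdsWithin_le_nhds (lt_mem_nhds one_pos)
      filter_upwards [this] with t ht
      exact hgz t ht
    exact ht.frequently hev.frequently
  have hIS : I ∈ S := by simp [hS]
  have hzero := hg.eqOn_zero_of_preconnected_of_frequently_eq_zero hpre hIS hfreq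
  have hfd : S.EqOn (fderiv ℝ D) 0 := by
    intro z hz
    have h := hzero hz
    simp only [Pi.zero_apply] at h
    have hre := congrArg Complex.re h
    have him := congrArg Complex.im h
    simp at hre him
    ext a
    have ha : a = a.re • (1 : ℂ) + a.im • (I : ℂ) := by simp
    rw [ha, map_add, map_smul, map_smul, hre, him]
    simp
  intro z hz
  have h := IsOpen.is_const_of_fderiv_eq_zero hopen hpre
    (fun z hz => (hdiff z hz).differentiableWithinAt) hfd hz hIS
  rw [h]
  have := hax 1 one_pos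
  simpa using this

end H961Lev
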