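import Pool.Agent.H961R2.Lev.Stubs

open MeasureTheory Set Filter Topology InnerProductSpace Complex

set_option autoImplicit false

namespace H961Lev

theorem H1_local (u : ℂ → ℝ) (z : ℂ) (hu : HarmonicAt u z) :
    ∃ F : ℂ → ℂ, AnalyticAt ℂ F z ∧ ∀ᶠ w in 𝓝 z, AnalyticAt ℂ F w ∧ u w = (F w).re := by
  obtain ⟨ε, h₁ε, h₂ε⟩ := Metric.isOpen_iff.1 (isOpen_setOfPred_harmonicAt (f := u)) z hu
  obtain ⟨F, h₁F, h₂F⟩ := InnerProductSpace.HarmonicOnNhd.exists_analyticOnNhd_ball_re_eq
    (fun _ hy ↦ h₂ε hy)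
  refine ⟨F, h₁F z (Metric.mem_ball_self h₁ε), ?_⟩
  filter_upwards [Metric.ball_mem_nhds z h₁ε] with w hw
  exact ⟨h₁F w hw, (h₂F hw).symm⟩

theorem T_H1 : S_H1 := by
  constructor
  · intro u f z hf hu
    obtain ⟨F, hF, hFe⟩ := H1_local u (f z) hu
    have h1 : AnalyticAt ℂ (fun w => F (f w)) z := hF.comp hf
    have h2 := h1.harmonicAt_re
    refine (harmonicAt_congr_nhds ?_).2 h2
    filter_upwards [hf.continuousAt.eventually hFe] with w hw
    exact hw.2
  · intro u z hu
    obtain ⟨F, hF, hFe⟩ := H1_local u (-(starRingEnd ℂ) z) hu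
    have hc : Tendsto (fun w : ℂ => -(starRingEnd ℂ) w) (𝓝 z) (𝓝 (-(starRingEnd ℂ) z)) :=
      (Continuous.neg continuous_conj).continuousAt
    have h1 : AnalyticAt ℂ (fun w => (starRingEnd ℂ) (F (-(starRingEnd ℂ) w))) z := by
      rw [analyticAt_iff_eventually_differentiableAt]
      filter_upwards [hc.eventually hFe] with w hw
      have h3 : DifferentiableAt ℂ (fun v => F (-v)) ((starRingEnd ℂ) w) :=
        DifferentiableAt.comp (g := F) (f := fun v : ℂ => -v) ((starRingEnd ℂ) w)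
          hw.1.differentiableAt (differentiableAt_id.neg)
      have h4 := h3.conj_conj
      rw [Complex.conj_conj] at h4
      exact h4
    have h2 := h1.harmonicAt_re
    refine (harmonicAt_congr_nhds ?_).2 h2
    filter_upwards [hc.eventually hFe] with w hw
    rw [hw.2, Complex.conj_re]

end H961Lev
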